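import Pool.Agent.R224.MD.Low3

/-!
# The supremum of the mean-distance-to-inradius ratio of planar domains

For a nonempty bounded open set `Ω` of the plane let `d x` be the distance from `x` to the
boundary. The supremum over all such `Ω` of the ratio of the mean of `d` over `Ω` to the supremum
of `d` over `Ω` (the inradius) is `1/3 + (log 3)/4`.
-/

set_option autoImplicit false

namespace Pool.Agent.Results.MP_50360a_an.MeanDistSup

/-- The mean over `Ω` of the distance to the boundary of `Ω`. -/
noncomputable def meanDist (Ω : Set (EuclideanSpace ℝ (Fin 2))) : ℝ :=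
  (MeasureTheory.volume.real Ω)⁻¹ * ∫ x in Ω, Metric.infDist x (frontier Ω)

/-- The inradius: the supremum over `Ω` of the distance to the boundary of `Ω`. -/
noncomputable def inradius (Ω : Set (EuclideanSpace ℝ (Fin 2))) : ℝ :=
  sSup {t : ℝ | ∃ x ∈ Ω, t = Metric.infDist x (frontier Ω)}

/-- The supremum of `meanDist Ω / inradius Ω` over all nonempty bounded open planar sets is
`1/3 + (log 3)/4`. -/
theorem result :
    IsLUB {t : ℝ | ∃ Ω : Set (EuclideanSpace ℝ (Fin 2)), IsOpen Ω ∧ Bornology.IsBounded Ω ∧
      Ω.Nonempty ∧ t = meanDist Ω / inradius Ω} (1 / 3 + Real.log 3 / 4) := by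
  have h := Pool.Agent.R224.MD.final
  have e : ∀ Ω : Set (EuclideanSpace ℝ (Fin 2)),
      meanDist Ω / inradius Ω = Pool.Agent.R224.MD.FE Ω := by
    intro Ω
    unfold meanDist inradius Pool.Agent.R224.MD.FE
    rw [MeasureTheory.setAverage_eq, smul_eq_mul]
    congr 2
    ext t
    constructor
    · rintro ⟨x, hx, rfl⟩
      exact ⟨x, hx, rfl⟩
    · rintro ⟨x, hx, rfl⟩
      exact ⟨x, hx, rfl⟩
  simp_rw [e]
  exact h

end Pool.Agent.Results.MP_50360a_an.MeanDistSup
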